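import Mathlib
import Pool.Agent.K4W.StmtsF

/-!
# Squad K4W, row BCD (helper47): the number of bad cells
-/

set_option autoImplicit false

open scoped Classical

namespace Pool.Agent.K4W.H47

open Pool.Agent.Helper69_Weyl (ee W)
open Pool.Agent.VM (Nr)
open Pool.Agent.K4W

namespace Bcd

/-- integers in an interval -/
theorem card_int_le {T : ℝ} {F : Finset ℤ} (h : ∀ j ∈ F, |(j : ℝ)| ≤ T) (hT : 0 ≤ T) :
    (F.card : ℝ) ≤ 2 * T + 1 := by
  have h1 : F ⊆ Finset.Icc (-⌊T⌋) ⌊T⌋ := by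
    intro j hj
    have h2 := h j hj
    rw [abs_le] at h2
    rw [Finset.mem_Icc]
    constructor
    · have h3 : ((-j : ℤ) : ℝ) ≤ T := by
        push_cast
        linarith
      have h4 := Int.le_floor.2 h3
      omega
    · exact Int.le_floor.2 h2.2
  have h2 := Finset.card_le_card h1
  rw [Int.card_Icc] at h2
  have h3 : 0 ≤ ⌊T⌋ := Int.floor_nonneg.2 hT
  have h4 : (F.card : ℤ) ≤ 2 * ⌊T⌋ + 1 := by omega
  have h5 : (F.card : ℝ) ≤ 2 * (⌊T⌋ : ℝ) + 1 := by exact_mod_cast h4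
  have h6 := Int.floor_le T
  linarith

/-- the inverse modulo `r` -/
theorem vv_inv {r μ : ℕ} (hr : 0 < r) (hμ : μ.Prime) (hnd : ¬ μ ∣ r) :
    (r : ℤ) ∣ (μ : ℤ) * vv r μ - 1 := by
  have : NeZero r := ⟨by omega⟩
  have hc : Nat.Coprime μ r := (Nat.Prime.coprime_iff_not_dvd hμ).2 hnd
  rw [← ZMod.intCast_eq_intCast_iff_dvd_sub]
  unfold vv
  push_cast
  rw [ZMod.natCast_zmod_val, ZMod.coe_mul_inv_eq_one μ hc]

/-- consequences of `ParR` -/
theorem parR_bd {Z N r : ℕ} {j : ℤ} (hZ : 1 ≤ Z) (hS : Sz Z N)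
    (h : ParR Z N r 1 ((j : ℝ) / (Z : ℝ) ^ 130216)) :
    1 ≤ r ∧ r ≤ 4 * Z ^ 64084 ∧ (r : ℝ) * |(j : ℝ)| ≤ 3 * (Z : ℝ) ^ 66300 := by
  obtain ⟨h1, h2, h3, _, h5, _⟩ := h
  have hz : (0 : ℝ) < (Z : ℝ) := by exact_mod_cast hZ
  refine ⟨h1.pos, ?_, ?_⟩
  · calc r ≤ 2 * N * Z ^ 84 := h3
      _ ≤ 2 * (2 * Z ^ 64000) * Z ^ 84 := by
        apply Nat.mul_le_mul_right
        exact Nat.mul_le_mul_left 2 hS.2
      _ = 4 * Z ^ 64084 := by
        have e : Z ^ 64084 = Z ^ 64000 * Z ^ 84 := by rw [← pow_add]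
        rw [e]
        ring
  · have hN : (Z : ℝ) ^ 64000 ≤ (N : ℝ) := by
      have := (Nat.cast_le (α := ℝ)).2 hS.1
      push_cast at this
      exact this
    have hN0 : (0 : ℝ) < (N : ℝ) := lt_of_lt_of_le (pow_pos hz _) hN
    rw [abs_div, abs_of_pos (pow_pos hz 130216), ← mul_div_assoc, div_le_div_iff₀
      (pow_pos hz _) hN0] at h5
    have h6 : (r : ℝ) * |(j : ℝ)| * (Z : ℝ) ^ 64000 ≤ 3 * (Z : ℝ) ^ 84 * (Z : ℝ) ^ 130216 :=
      le_trans (mul_le_mul_of_nonneg_left hN (by positivity)) h5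
    have e1 : 3 * (Z : ℝ) ^ 84 * (Z : ℝ) ^ 130216 = 3 * (Z : ℝ) ^ 66300 * (Z : ℝ) ^ 64000 := by
      rw [mul_assoc, mul_assoc, ← pow_add, ← pow_add]
    rw [e1] at h6
    exact le_of_mul_le_mul_right h6 (pow_pos hz _)

end Bcd

open Bcd in
/-- **BCD** -/
theorem bcd (hbdu : BduStmt) : BcdStmt := by
  obtain ⟨Z₀, h0⟩ := hbdu
  refine ⟨Z₀ + 4, ?_⟩
  intro Z hZ N S Ψ hSz hS hΨ hcard
  have hZ1 : 4 ≤ Z := by omega
  obtain ⟨J, hJ⟩ : ∃ J : ℤ, J = ((3 * Z ^ 66300 : ℕ) : ℤ) := ⟨_, rfl⟩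
  obtain ⟨R, hR⟩ : ∃ R : ℕ, R = 4 * Z ^ 64084 := ⟨_, rfl⟩
  obtain ⟨G, hG⟩ : ∃ G : ℕ → Finset ℤ, G = fun r => (Finset.Icc (-J) J).filter
    (fun j : ℤ => ParR Z N r 1 ((j : ℝ) / (Z : ℝ) ^ 130216)) := ⟨_, rfl⟩
  obtain ⟨bad, hbad⟩ : ∃ bad : ℕ → ℤ → (ℕ → ℂ) → Finset ℕ, bad = fun r (j : ℤ) ψ =>
    (Finset.range r).filter (fun u : ℕ => (S.card : ℝ) * (Z : ℝ) ^ 31917 ≤
      ‖PS N r (Z ^ 1085) S ψ (vv r) ((j : ℝ) / (Z : ℝ) ^ 130216) (u : ℤ)‖) := ⟨_, rfl⟩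
  have hGm : ∀ r j, j ∈ G r ↔ (-J ≤ j ∧ j ≤ J) ∧
      ParR Z N r 1 ((j : ℝ) / (Z : ℝ) ^ 130216) := by
    intro r j
    rw [hG]
    simp only [Finset.mem_filter, Finset.mem_Icc]
  have hz : (4 : ℝ) ≤ (Z : ℝ) := by exact_mod_cast hZ1
  have hz0 : (0 : ℝ) < (Z : ℝ) := by linarith
  have hz1 : (1 : ℝ) ≤ (Z : ℝ) := by linarith
  refine ⟨(Finset.range (R + 1)).biUnion fun r => (G r).biUnion fun j => Ψ.biUnion fun ψ =>
    (bad r j ψ).image fun u => (r, j, ψ, u), ?_, ?_⟩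
  · -- the number of elements
    have hc1 : ∀ r j ψ, j ∈ G r → ψ ∈ Ψ → ((bad r j ψ).card : ℝ) * (Z : ℝ) ^ 23120 ≤ (r : ℝ) := by
      intro r j ψ hj hψ
      have hp := ((hGm r j).1 hj).2
      have hr := (parR_bd (by omega) hSz hp).1
      have h1 := h0 Z (by omega) N r 1 ((j : ℝ) / (Z : ℝ) ^ 130216) S ψ (vv r) hSz hS hp
        (hΨ ψ hψ) (fun μ hμ hnd => vv_inv (by omega) (hS.2 μ hμ).1 hnd)
      rw [hbad]
      exact h1
    have hc2 : ∀ r, ((G r).card : ℝ) * (r : ℝ) ≤ 6 * (Z : ℝ) ^ 66300 + (r : ℝ) := by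
      intro r
      rcases Nat.eq_zero_or_pos r with h1 | h1
      · rw [h1]
        have : (0 : ℝ) < (Z : ℝ) ^ 66300 := pow_pos hz0 _
        push_cast
        linarith
      · have hr : (0 : ℝ) < (r : ℝ) := by exact_mod_cast h1
        have h2 : ∀ j ∈ G r, |(j : ℝ)| ≤ 3 * (Z : ℝ) ^ 66300 / (r : ℝ) := by
          intro j hj
          have hp := ((hGm r j).1 hj).2
          have h3 := (parR_bd (by omega) hSz hp).2.2
          rw [le_div_iff₀ hr]
          linarith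
        have h3 := card_int_le h2 (by positivity)
        calc ((G r).card : ℝ) * (r : ℝ) ≤ (2 * (3 * (Z : ℝ) ^ 66300 / (r : ℝ)) + 1) * (r : ℝ) :=
              mul_le_mul_of_nonneg_right h3 hr.le
          _ = 6 * (Z : ℝ) ^ 66300 + (r : ℝ) := by
              field_simp
              ring
    have hc3 : (((Finset.range (R + 1)).biUnion fun r => (G r).biUnion fun j =>
        Ψ.biUnion fun ψ => (bad r j ψ).image fun u => (r, j, ψ, u)).card : ℝ) ≤
        ∑ r ∈ Finset.range (R + 1), ∑ j ∈ G r, ∑ ψ ∈ Ψ, ((bad r j ψ).card : ℝ) := by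
      have h1 : ((Finset.range (R + 1)).biUnion fun r => (G r).biUnion fun j =>
        Ψ.biUnion fun ψ => (bad r j ψ).image fun u => (r, j, ψ, u)).card ≤
        ∑ r ∈ Finset.range (R + 1), ∑ j ∈ G r, ∑ ψ ∈ Ψ, (bad r j ψ).card := by
        refine le_trans Finset.card_biUnion_le (Finset.sum_le_sum fun r _ => ?_)
        refine le_trans Finset.card_biUnion_le (Finset.sum_le_sum fun j _ => ?_)
        refine le_trans Finset.card_biUnion_le (Finset.sum_le_sum fun ψ _ => ?_)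
        exact Finset.card_image_le
      exact_mod_cast h1
    have hRR : (R : ℝ) = 4 * (Z : ℝ) ^ 64084 := by
      rw [hR]
      push_cast
      rfl
    have hΨc : (Ψ.card : ℝ) ≤ (Z : ℝ) ^ 4250 := by
      have h1 := (Nat.cast_le (α := ℝ)).2 hcard
      push_cast at h1
      exact h1
    have hc4 : (∑ r ∈ Finset.range (R + 1), ∑ j ∈ G r, ∑ ψ ∈ Ψ, ((bad r j ψ).card : ℝ)) *
        (Z : ℝ) ^ 23120 ≤ ((R : ℝ) + 1) * ((Z : ℝ) ^ 4250 * (6 * (Z : ℝ) ^ 66300 + (R : ℝ))) := by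
      rw [Finset.sum_mul]
      have h1 : ∀ r ∈ Finset.range (R + 1), (∑ j ∈ G r, ∑ ψ ∈ Ψ, ((bad r j ψ).card : ℝ)) *
          (Z : ℝ) ^ 23120 ≤ (Z : ℝ) ^ 4250 * (6 * (Z : ℝ) ^ 66300 + (R : ℝ)) := by
        intro r hr
        have hrR : (r : ℝ) ≤ (R : ℝ) := by
          rw [Finset.mem_range] at hr
          exact_mod_cast (by omega : r ≤ R)
        calc (∑ j ∈ G r, ∑ ψ ∈ Ψ, ((bad r j ψ).card : ℝ)) * (Z : ℝ) ^ 23120
            = ∑ j ∈ G r, ∑ ψ ∈ Ψ, ((bad r j ψ).card : ℝ) * (Z : ℝ) ^ 23120 := by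
              rw [Finset.sum_mul]
              apply Finset.sum_congr rfl
              intro j _
              rw [Finset.sum_mul]
          _ ≤ ∑ j ∈ G r, ∑ ψ ∈ Ψ, (r : ℝ) := by
              apply Finset.sum_le_sum
              intro j hj
              apply Finset.sum_le_sum
              intro ψ hψ
              exact hc1 r j ψ hj hψ
          _ = (Ψ.card : ℝ) * (((G r).card : ℝ) * (r : ℝ)) := by
              rw [Finset.sum_const, Finset.sum_const, nsmul_eq_mul, nsmul_eq_mul]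
              ring
          _ ≤ (Z : ℝ) ^ 4250 * (6 * (Z : ℝ) ^ 66300 + (R : ℝ)) := by
              apply mul_le_mul hΨc _ (by positivity) (by positivity)
              have := hc2 r
              linarith
      refine le_trans (Finset.sum_le_sum h1) ?_
      rw [Finset.sum_const, Finset.card_range, nsmul_eq_mul]
      push_cast
      exact le_refl _
    have hc5 : ((R : ℝ) + 1) * ((Z : ℝ) ^ 4250 * (6 * (Z : ℝ) ^ 66300 + (R : ℝ))) ≤
        (Z : ℝ) ^ 111520 * (Z : ℝ) ^ 23120 := by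
      rw [hRR]
      obtain ⟨z, hzz⟩ : ∃ z : ℝ, z = (Z : ℝ) := ⟨_, rfl⟩
      rw [← hzz] at hz hz0 hz1 ⊢
      have e1 : 4 * z ^ 64084 + 1 ≤ 5 * z ^ 64084 := by
        have : 1 ≤ z ^ 64084 := one_le_pow₀ hz1
        linarith
      have e2 : 6 * z ^ 66300 + 4 * z ^ 64084 ≤ 10 * z ^ 66300 := by
        have : z ^ 64084 ≤ z ^ 66300 := pow_le_pow_right₀ hz1 (by omega)
        linarith
      have e3 : (50 : ℝ) ≤ z ^ 6 := by
        calc (50 : ℝ) ≤ 4 ^ 6 := by norm_num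
          _ ≤ z ^ 6 := pow_le_pow_left₀ (by norm_num) hz 6
      calc (4 * z ^ 64084 + 1) * (z ^ 4250 * (6 * z ^ 66300 + 4 * z ^ 64084))
          ≤ (5 * z ^ 64084) * (z ^ 4250 * (10 * z ^ 66300)) := by
            apply mul_le_mul e1 _ (by positivity) (by positivity)
            exact mul_le_mul_of_nonneg_left e2 (by positivity)
        _ = 50 * (z ^ 64084 * (z ^ 4250 * z ^ 66300)) := by ring
        _ ≤ z ^ 6 * (z ^ 64084 * (z ^ 4250 * z ^ 66300)) :=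
            mul_le_mul_of_nonneg_right e3 (by positivity)
        _ = z ^ 111520 * z ^ 23120 := by
            rw [← pow_add, ← pow_add, ← pow_add, ← pow_add]
    have hc6 := le_trans (mul_le_mul_of_nonneg_right hc3 (pow_pos hz0 23120).le)
      (le_trans hc4 hc5)
    exact le_of_mul_le_mul_right hc6 (pow_pos hz0 _)
  · -- the bad cells are in the set
    intro r j ψ u hψ hu hp hb
    obtain ⟨h1, h2, h3⟩ := parR_bd (by omega) hSz hp
    rw [Finset.mem_biUnion]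
    refine ⟨r, Finset.mem_range.2 (by rw [hR]; omega), ?_⟩
    rw [Finset.mem_biUnion]
    refine ⟨j, ?_, ?_⟩
    · rw [hGm]
      refine ⟨?_, hp⟩
      have h4 : |(j : ℝ)| ≤ 3 * (Z : ℝ) ^ 66300 := by
        have h5 : (1 : ℝ) ≤ (r : ℝ) := by exact_mod_cast h1
        have h6 : |(j : ℝ)| ≤ (r : ℝ) * |(j : ℝ)| := by
          calc |(j : ℝ)| = 1 * |(j : ℝ)| := by ring
            _ ≤ (r : ℝ) * |(j : ℝ)| := mul_le_mul_of_nonneg_right h5 (abs_nonneg _)
        linarith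
      have h5 : |j| ≤ J := by
        have h6 : ((|j| : ℤ) : ℝ) ≤ ((J : ℤ) : ℝ) := by
          rw [hJ]
          push_cast
          exact h4
        exact_mod_cast h6
      exact abs_le.1 h5
    · rw [Finset.mem_biUnion]
      refine ⟨ψ, hψ, ?_⟩
      rw [Finset.mem_image]
      refine ⟨u, ?_, rfl⟩
      rw [hbad]
      simp only [Finset.mem_filter, Finset.mem_range]
      exact ⟨hu, hb⟩

end Pool.Agent.K4W.H47
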