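import Mathlib
import Pool.Agent.K4W.StmtsF

/-!
# Squad K4W, row PTB (helper47): the assembly of part B
-/

set_option autoImplicit false

open scoped Classical

namespace Pool.Agent.K4W.H47

open Pool.Agent.Helper69_Weyl (ee W)
open Pool.Agent.VM (Nr)
open Pool.Agent.K4W

/-- the size of `l` in the box -/
theorem l_bd {Z N : ℕ} (hN : 1 ≤ N) {p : ℤ × ℤ} (hp : p ∈ Bx Z N) :
    (4 * Real.pi * (p.1 : ℝ) ^ 2 / (N : ℝ) ^ 2) * (Z : ℝ) ^ 2000 ≤ 100 * (Z : ℝ) ^ 2 := by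
  have h1 : |p.1| * (Z : ℤ) ^ 1000 ≤ 2 * (Z : ℤ) * (N : ℤ) :=
    (Finset.mem_filter.1 hp).2.2.2
  have h2 : |(p.1 : ℝ)| * (Z : ℝ) ^ 1000 ≤ 2 * (Z : ℝ) * (N : ℝ) := by
    have := (Int.cast_le (R := ℝ)).2 h1
    push_cast at this
    exact this
  have hNR : (0 : ℝ) < (N : ℝ) := by exact_mod_cast hN
  have h3 : (|(p.1 : ℝ)| * (Z : ℝ) ^ 1000) ^ 2 ≤ (2 * (Z : ℝ) * (N : ℝ)) ^ 2 :=
    pow_le_pow_left₀ (by positivity) h2 2
  have h4 : (|(p.1 : ℝ)| * (Z : ℝ) ^ 1000) ^ 2 = (p.1 : ℝ) ^ 2 * (Z : ℝ) ^ 2000 := by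
    rw [mul_pow, sq_abs, ← pow_mul]
  rw [h4] at h3
  have e1 : (4 * Real.pi * (p.1 : ℝ) ^ 2 / (N : ℝ) ^ 2) * (Z : ℝ) ^ 2000 =
      4 * Real.pi * ((p.1 : ℝ) ^ 2 * (Z : ℝ) ^ 2000) / (N : ℝ) ^ 2 := by
    ring
  rw [e1, div_le_iff₀ (by positivity)]
  have hpi : Real.pi ≤ 4 := Real.pi_le_four
  calc 4 * Real.pi * ((p.1 : ℝ) ^ 2 * (Z : ℝ) ^ 2000)
      ≤ 4 * Real.pi * (2 * (Z : ℝ) * (N : ℝ)) ^ 2 := by
        apply mul_le_mul_of_nonneg_left h3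
        positivity
    _ = 16 * Real.pi * ((Z : ℝ) ^ 2 * (N : ℝ) ^ 2) := by ring
    _ ≤ 100 * ((Z : ℝ) ^ 2 * (N : ℝ) ^ 2) := by
        apply mul_le_mul_of_nonneg_right _ (by positivity)
        have := Real.pi_lt_d2
        linarith
    _ = 100 * (Z : ℝ) ^ 2 * (N : ℝ) ^ 2 := by ring

/-- replacing `ps` by a function of the grid -/
theorem repl {S : Finset ℕ} {f ψ t : ℕ → ℂ} {δ Y : ℝ} (h : ∀ μ ∈ S, ‖f μ - ψ μ‖ ≤ δ)
    (hY : ‖∑ μ ∈ S, ψ μ * t μ‖ + δ * ∑ μ ∈ S, ‖t μ‖ ≤ Y) : ‖∑ μ ∈ S, f μ * t μ‖ ≤ Y := by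
  have e : ∑ μ ∈ S, f μ * t μ = ∑ μ ∈ S, ψ μ * t μ + ∑ μ ∈ S, (f μ - ψ μ) * t μ := by
    rw [← Finset.sum_add_distrib]
    apply Finset.sum_congr rfl
    intro μ _
    ring
  rw [e]
  refine le_trans (norm_add_le _ _) (le_trans ?_ hY)
  gcongr
  rw [Finset.mul_sum]
  refine le_trans (norm_sum_le _ _) (Finset.sum_le_sum ?_)
  intro μ hμ
  rw [norm_mul]
  exact mul_le_mul_of_nonneg_right (h μ hμ) (norm_nonneg _)

/-- the numerical part -/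
theorem num {Z : ℕ} {C s U N X w : ℝ} (hZ : 4 * C ≤ (Z : ℝ)) (hZ3 : 3 ≤ Z) (hC : 0 < C)
    (hs : 1 ≤ s) (hN0 : 0 ≤ N) (hN : N ≤ 2 * (Z : ℝ) ^ 64000) (hX : X = 8 * (Z : ℝ) ^ 127002)
    (hU : s * U ≤ 8 * (Z : ℝ) ^ 1000 * (C * s * N ^ 2 + 1 + (Z : ℝ) * (s * X * (Z : ℝ) ^ 31922)))
    (hw : w ≤ (Z : ℝ) ^ 64004 * (U + 1)) : w * (Z : ℝ) ^ 66 ≤ (Z : ℝ) ^ 224000 := by
  have hz1 : (3 : ℝ) ≤ (Z : ℝ) := by exact_mod_cast hZ3
  obtain ⟨z, hz⟩ : ∃ z : ℝ, z = (Z : ℝ) := ⟨_, rfl⟩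
  rw [← hz] at hZ hN hX hU hw hz1 ⊢
  have hz0 : (0 : ℝ) < z := by linarith
  have hz1' : (1 : ℝ) ≤ z := by linarith
  have hN2 : C * N ^ 2 ≤ z ^ 128001 := by
    have h1 : N ^ 2 ≤ (2 * z ^ 64000) ^ 2 := pow_le_pow_left₀ hN0 hN 2
    have h2 : (2 * z ^ 64000) ^ 2 = 4 * z ^ 128000 := by
      rw [mul_pow, ← pow_mul]
      norm_num
    have h3 : z ^ 128001 = z ^ 128000 * z := pow_succ z 128000
    rw [h2] at h1
    rw [h3]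
    have h4 : 0 < z ^ 128000 := pow_pos hz0 _
    nlinarith
  have hN3 : z ^ 128001 ≤ z ^ 158925 := pow_le_pow_right₀ hz1' (by omega)
  have hN4 : 1 ≤ z ^ 158925 := one_le_pow₀ hz1'
  have hX2 : z * (X * z ^ 31922) = 8 * z ^ 158925 := by
    rw [hX]
    have : z ^ 158925 = z * (z ^ 127002 * z ^ 31922) := by
      rw [← pow_add, ← pow_succ']
    rw [this]
    ring
  have hU2 : U ≤ 80 * z ^ 159925 := by
    have h1 : s * U ≤ s * (80 * z ^ 159925) := by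
      refine le_trans hU ?_
      have h2 : z ^ 159925 = z ^ 1000 * z ^ 158925 := by rw [← pow_add]
      rw [h2]
      have h3 : C * s * N ^ 2 + 1 + z * (s * X * z ^ 31922) ≤ s * (10 * z ^ 158925) := by
        have h4 : z * (s * X * z ^ 31922) = s * (8 * z ^ 158925) := by
          rw [← hX2]
          ring
        have h5 : C * s * N ^ 2 = s * (C * N ^ 2) := by ring
        rw [h4, h5]
        have h6 : (1 : ℝ) ≤ s * z ^ 158925 := by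
          calc (1 : ℝ) = 1 * 1 := by ring
            _ ≤ s * z ^ 158925 := mul_le_mul hs hN4 zero_le_one (by linarith)
        have h7 : s * (C * N ^ 2) ≤ s * z ^ 158925 :=
          mul_le_mul_of_nonneg_left (hN2.trans hN3) (by linarith)
        linarith
      have h8 : (0 : ℝ) ≤ 8 * z ^ 1000 := by positivity
      calc 8 * z ^ 1000 * (C * s * N ^ 2 + 1 + z * (s * X * z ^ 31922))
          ≤ 8 * z ^ 1000 * (s * (10 * z ^ 158925)) := mul_le_mul_of_nonneg_left h3 h8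
        _ = s * (80 * (z ^ 1000 * z ^ 158925)) := by ring
    exact le_of_mul_le_mul_left h1 (by linarith)
  have hU3 : U + 1 ≤ 81 * z ^ 159925 := by
    have h1 : 1 ≤ z ^ 159925 := one_le_pow₀ hz1'
    linarith
  have h81 : (81 : ℝ) ≤ z ^ 5 := by
    calc (81 : ℝ) ≤ 3 ^ 5 := by norm_num
      _ ≤ z ^ 5 := pow_le_pow_left₀ (by norm_num) hz1 5
  calc w * z ^ 66 ≤ (z ^ 64004 * (U + 1)) * z ^ 66 :=
        mul_le_mul_of_nonneg_right hw (by positivity)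
    _ ≤ (z ^ 64004 * (81 * z ^ 159925)) * z ^ 66 := by
        apply mul_le_mul_of_nonneg_right _ (by positivity)
        exact mul_le_mul_of_nonneg_left hU3 (by positivity)
    _ ≤ (z ^ 64004 * (z ^ 5 * z ^ 159925)) * z ^ 66 := by
        apply mul_le_mul_of_nonneg_right _ (by positivity)
        apply mul_le_mul_of_nonneg_left _ (by positivity)
        exact mul_le_mul_of_nonneg_right h81 (by positivity)
    _ = z ^ 224000 := by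
        rw [← pow_add, ← pow_add, ← pow_add]

/-- **PTB** -/
theorem ptb (hprz : PrzStmt) (hv2 : V2Statement) (hv3 : V3Statement) (humn : UmnStatement)
    (hufn : UfnStatement) (hysm : YsmStmt) : PtbStmt := by
  obtain ⟨Z1, h1⟩ := hprz
  obtain ⟨Z2, h2⟩ := hv2
  obtain ⟨Z3, h3⟩ := hv3
  obtain ⟨Z4, h4⟩ := humn
  obtain ⟨C, Z5, hC, h5⟩ := hufn
  obtain ⟨Z6, h6⟩ := hysm
  refine ⟨Z1 + Z2 + Z3 + Z4 + Z5 + Z6 + ⌈4 * C⌉₊ + 3, ?_⟩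
  intro Z hZ N Q a t ξ hN1 hN2 hQ1 hQ2 hg ht
  have hSz : Sz Z N := ⟨hN1, hN2⟩
  have hB : ParB Z N Q a t := ⟨hN1, hN2, hQ1, hQ2, hg, ht⟩
  obtain ⟨S, hS⟩ := h1 Z (by omega)
  obtain ⟨Ψ, hΨ1, hΨ2, hΨ3⟩ := h3 Z (by omega)
  obtain ⟨Y, hY1, hY2, hY3⟩ := h6 Z (by omega) N Q a t S Ψ hB hS hΨ2 hΨ1
  have hN0 : 1 ≤ N := le_trans (Nat.one_le_pow _ _ (by omega)) hN1
  have hS1 : 1 ≤ S.card := le_trans (Nat.one_le_pow _ _ (by omega)) hS.1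
  have hu := h5 Z (by omega) N t S hSz (fun μ hμ => (hS.2 μ hμ).2)
  have hsum : ∑ p ∈ Bx Z N,
        ‖∑ μ ∈ S, ps (16 * t * (p.1 : ℝ) ^ 3 * (p.2 : ℝ)) (16 * t * (p.1 : ℝ) * (p.2 : ℝ) ^ 3)
          (4 * Real.pi * (p.1 : ℝ) ^ 2 / (N : ℝ) ^ 2) μ *
          th N (48 * t * (μ : ℝ) * ((p.1 * p.2 : ℤ) : ℝ))‖ ≤
      (Z : ℝ) * ((S.card : ℝ) * (Xz Z : ℝ) * (Z : ℝ) ^ 31922) := by
    refine le_trans (Finset.sum_le_sum (g := fun p => Y (p.1 * p.2)) ?_) ?_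
    · intro p hp
      obtain ⟨ψ, hψ, hψ2⟩ := hΨ3 (16 * t * (p.1 : ℝ) ^ 3 * (p.2 : ℝ))
        (16 * t * (p.1 : ℝ) * (p.2 : ℝ) ^ 3) (4 * Real.pi * (p.1 : ℝ) ^ 2 / (N : ℝ) ^ 2)
        (by positivity) (l_bd hN0 hp)
      exact repl (fun μ hμ => hψ2 μ (hS.2 μ hμ).2.2) (hY2 (p.1 * p.2) ψ hψ)
    · refine le_trans (h2 Z (by omega) N Y hSz hY1) ?_
      exact mul_le_mul_of_nonneg_left hY3 (Nat.cast_nonneg _)
  have hu2 := le_trans hu (mul_le_mul_of_nonneg_left (add_le_add_right hsum _) (by positivity))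
  have hC4 : 4 * C ≤ (Z : ℝ) := by
    have h7 := Nat.le_ceil (4 * C)
    have h8 : ((⌈4 * C⌉₊ : ℕ) : ℝ) ≤ (Z : ℝ) := by
      exact_mod_cast (by omega : ⌈4 * C⌉₊ ≤ Z)
    linarith
  have hXz : ((Xz Z : ℕ) : ℝ) = 8 * (Z : ℝ) ^ 127002 := by
    unfold Xz
    push_cast
    rfl
  refine num hC4 (by omega) hC (by exact_mod_cast hS1) (Nat.cast_nonneg N) ?_ hXz hu2
    (h4 Z (by omega) N t ξ hSz)
  have h9 := (Nat.cast_le (α := ℝ)).2 hN2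
  push_cast at h9
  exact h9

end Pool.Agent.K4W.H47
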