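import Mathlib
import Pool.Agent.K4W.StmtsU

/-!
# Squad K4W, row UBR (helper47): the square of the fourth power
-/

set_option autoImplicit false

namespace Pool.Agent.K4W.H47

open Pool.Agent.Helper69_Weyl (ee W)
open Pool.Agent.K4W

/-- **UBR** -/
theorem ubr (hugb : UgbStmt) (husm : UsmStmt) (hunm : UnmStmt) (huba : UbaStmt) (hubb : UbbStmt)
    (hubc : UbcStmt) : UbrStmt := by
  obtain ⟨Z₀, hZ0, h0⟩ := hunm
  refine ⟨Z₀, ?_⟩
  intro Z hZ N t ξ hN1 hN2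
  have hZ1 : 1 ≤ Z := by omega
  obtain ⟨A, hA⟩ : ∃ A : ℤ → ℝ, A = fun h => ‖AA (f N t ξ) h‖ := ⟨_, rfl⟩
  have hA0 : ∀ h, 0 ≤ A h := by
    intro h
    rw [hA]
    exact norm_nonneg _
  obtain ⟨hs1, hs2⟩ := huba (f N t ξ) (husm.2.1 N t ξ hN1)
  have hs1' : Summable A := by
    rw [hA]
    exact hs1
  have hs2' : ‖∑' x : ℤ, f N t ξ x‖ ^ 2 ≤ ∑' h : ℤ, A h := by
    rw [hA]
    exact hs2
  obtain ⟨hu1, hu2⟩ := hubc.2 (f N t 0) (husm.2.1 N t 0 hN1)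
  have hu1' : Summable fun h : ℤ => A h ^ 2 := by
    refine hu1.congr ?_
    intro h
    rw [hA]
    simp only [hubc.1 N t ξ h]
  have hu2' : U (f N t 0) 1 1 = ∑' h : ℤ, A h ^ 2 := by
    rw [hu2]
    apply tsum_congr
    intro h
    rw [hA]
    simp only [hubc.1 N t ξ h]
  obtain ⟨H, hH⟩ : ∃ H : ℕ, H = Z * N := ⟨_, rfl⟩
  obtain ⟨I, hI⟩ : ∃ I : Finset ℤ, I = Finset.Icc (-(H : ℤ)) (H : ℤ) := ⟨_, rfl⟩
  have hIc : (I.card : ℝ) = 2 * (H : ℝ) + 1 := by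
    rw [hI, Int.card_Icc]
    have e : ((H : ℤ) + 1 - -(H : ℤ)).toNat = 2 * H + 1 := by omega
    rw [e]
    push_cast
    ring
  have hNR : (1 : ℝ) ≤ (N : ℝ) := by exact_mod_cast hN1
  have hZR : (1 : ℝ) ≤ (Z : ℝ) := by exact_mod_cast hZ1
  have hHR : (H : ℝ) = (Z : ℝ) * (N : ℝ) := by
    rw [hH]
    push_cast
    rfl
  -- the tail
  obtain ⟨g1, g2⟩ := hugb (2 * N) 1 0 ((Z : ℝ) * (N : ℝ)) (by omega) (le_refl 1) (by positivity)
  obtain ⟨g, hg⟩ : ∃ g : ℤ → ℝ, g = fun s : ℤ =>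
      if (Z : ℝ) * (N : ℝ) ≤ |((1 : ℕ) : ℝ) * (s : ℝ) + 0| then
        ga (2 * N) (((1 : ℕ) : ℝ) * (s : ℝ) + 0) else 0 := ⟨_, rfl⟩
  rw [← hg] at g1 g2
  have hgA : ∀ h : ℤ, h ∉ I → A h ≤ 200 * (N : ℝ) * g h := by
    intro h hh
    have h1 : A h ≤ 200 * (N : ℝ) * Real.exp (-(Real.pi * (h : ℝ) ^ 2 / (2 * (N : ℝ) ^ 2))) := by
      rw [hA]
      exact hubb N t ξ h hN1
    refine le_trans h1 ?_
    apply mul_le_mul_of_nonneg_left _ (by positivity)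
    have h2 : (Z : ℝ) * (N : ℝ) ≤ |((1 : ℕ) : ℝ) * (h : ℝ) + 0| := by
      rw [Nat.cast_one, one_mul, add_zero, ← hHR]
      have h3 : (H : ℤ) ≤ |h| := by
        by_contra hlt
        apply hh
        rw [hI, Finset.mem_Icc]
        push Not at hlt
        rw [abs_lt] at hlt
        exact ⟨hlt.1.le, hlt.2.le⟩
      exact_mod_cast h3
    rw [hg]
    simp only [if_pos h2]
    unfold ga
    apply Real.exp_le_exp.2
    rw [Nat.cast_one, one_mul, add_zero]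
    push_cast
    rw [neg_le_neg_iff, div_le_div_iff₀ (by positivity) (by positivity)]
    have hp := Real.pi_pos
    have h4 : 0 ≤ Real.pi * (h : ℝ) ^ 2 * (N : ℝ) ^ 2 := by positivity
    nlinarith
  have hg0 : ∀ h, 0 ≤ g h := by
    intro h
    rw [hg]
    simp only
    split_ifs
    · unfold ga
      exact (Real.exp_pos _).le
    · exact le_refl 0
  have hsplit : ∑' h : ℤ, A h ≤ ∑ h ∈ I, A h + 1 := by
    have e1 : ∑' h : ℤ, A h ≤ ∑' h : ℤ, ((if h ∈ I then A h else 0) + 200 * (N : ℝ) * g h) := by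
      apply Summable.tsum_le_tsum _ hs1'
      · refine Summable.add ?_ (g1.mul_left _)
        exact summable_of_ne_finset_zero (s := I) (fun h hh => if_neg hh)
      · intro h
        by_cases hh : h ∈ I
        · simp only [if_pos hh]
          have := hg0 h
          have : 0 ≤ 200 * (N : ℝ) * g h := by positivity
          linarith
        · simp only [if_neg hh, zero_add]
          exact hgA h hh
    refine le_trans e1 ?_
    rw [Summable.tsum_add (summable_of_ne_finset_zero (s := I) (fun h hh => if_neg hh))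
      (g1.mul_left _), tsum_mul_left]
    have e2 : ∑' h : ℤ, (if h ∈ I then A h else 0) = ∑ h ∈ I, A h := by
      rw [tsum_eq_sum (s := I) (fun h hh => if_neg hh)]
      apply Finset.sum_congr rfl
      intro h hh
      rw [if_pos hh]
    rw [e2]
    have e3 : 200 * (N : ℝ) * ∑' h : ℤ, g h ≤ 1 := by
      have h1 := (h0 Z hZ N hN1 hN2).1
      have h2 : 400 * ((2 * N : ℕ) : ℝ) *
          Real.exp (-(Real.pi * ((Z : ℝ) * (N : ℝ)) ^ 2 / (2 * ((2 * N : ℕ) : ℝ) ^ 2))) ≤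
          800 * (N : ℝ) * Real.exp (-((Z : ℝ) ^ 2 / 8)) := by
        have e4 : 400 * ((2 * N : ℕ) : ℝ) = 800 * (N : ℝ) := by
          push_cast
          ring
        rw [e4]
        apply mul_le_mul_of_nonneg_left _ (by positivity)
        apply Real.exp_le_exp.2
        rw [neg_le_neg_iff]
        push_cast
        rw [div_le_div_iff₀ (by norm_num) (by positivity)]
        have hp := Real.two_le_pi
        have h4 : 0 ≤ (Z : ℝ) ^ 2 * (N : ℝ) ^ 2 := by positivity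
        nlinarith
      have h3 : (1 : ℝ) ≤ (N : ℝ) ^ 2 := one_le_pow₀ hNR
      calc 200 * (N : ℝ) * ∑' h : ℤ, g h
          ≤ 200 * (N : ℝ) * (800 * (N : ℝ) * Real.exp (-((Z : ℝ) ^ 2 / 8))) :=
            mul_le_mul_of_nonneg_left (le_trans g2 h2) (by positivity)
        _ = 160000 * (N : ℝ) ^ 2 * Real.exp (-((Z : ℝ) ^ 2 / 8)) * 1 := by ring
        _ ≤ 160000 * (N : ℝ) ^ 2 * Real.exp (-((Z : ℝ) ^ 2 / 8)) * (N : ℝ) ^ 2 :=
            mul_le_mul_of_nonneg_left h3 (by positivity)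
        _ = 160000 * ((N : ℝ) ^ 4 * Real.exp (-((Z : ℝ) ^ 2 / 8))) := by ring
        _ ≤ 10 ^ 9 * ((N : ℝ) ^ 4 * Real.exp (-((Z : ℝ) ^ 2 / 8))) := by
            apply mul_le_mul_of_nonneg_right _ (by positivity)
            norm_num
        _ = 10 ^ 9 * (N : ℝ) ^ 4 * Real.exp (-((Z : ℝ) ^ 2 / 8)) := by ring
        _ ≤ 1 := h1
    linarith
  -- the main part
  obtain ⟨P, hP⟩ : ∃ P : ℝ, P = ∑ h ∈ I, A h := ⟨_, rfl⟩
  have hP0 : 0 ≤ P := by
    rw [hP]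
    exact Finset.sum_nonneg fun h _ => hA0 h
  have hU0 : 0 ≤ U (f N t 0) 1 1 := by
    rw [hu2']
    exact tsum_nonneg fun h => sq_nonneg _
  have hP2 : P ^ 2 ≤ (2 * ((Z : ℝ) * (N : ℝ)) + 1) * U (f N t 0) 1 1 := by
    have h1 : (∑ h ∈ I, A h) ^ 2 ≤ (I.card : ℝ) * ∑ h ∈ I, A h ^ 2 := sq_sum_le_card_mul_sum_sq
    rw [hIc, hHR, ← hP] at h1
    refine le_trans h1 ?_
    apply mul_le_mul_of_nonneg_left _ (by positivity)
    rw [hu2']
    exact hu1'.sum_le_tsum I (fun h _ => sq_nonneg _)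
  have hS : ‖∑' x : ℤ, f N t ξ x‖ ^ 2 ≤ P + 1 := by
    rw [hP]
    exact le_trans hs2' hsplit
  have e4 : ‖∑' x : ℤ, f N t ξ x‖ ^ 4 = (‖∑' x : ℤ, f N t ξ x‖ ^ 2) ^ 2 := by ring
  rw [e4]
  have h5 : (‖∑' x : ℤ, f N t ξ x‖ ^ 2) ^ 2 ≤ (P + 1) ^ 2 :=
    pow_le_pow_left₀ (by positivity) hS 2
  have h6 : (P + 1) ^ 2 ≤ 2 * P ^ 2 + 2 := by nlinarith [sq_nonneg (P - 1)]
  have hZN : (1 : ℝ) ≤ (Z : ℝ) * (N : ℝ) := by nlinarith
  have h7 : 2 * P ^ 2 + 2 ≤ 10 * (Z : ℝ) * (N : ℝ) * (U (f N t 0) 1 1 + 1) := by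
    nlinarith
  linarith

end Pool.Agent.K4W.H47
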