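import Mathlib
import Pool.Agent.K4W.StmtsU

/-!
# Squad K4W, row UTH (helper47): trivial bounds
-/

set_option autoImplicit false

namespace Pool.Agent.K4W.H47

open Pool.Agent.Helper69_Weyl (ee W)
open Pool.Agent.K4W

/-- **UTH** -/
theorem uth (huga : UgaStmt) : UthStmt := by
  refine ⟨?_, ?_⟩
  · intro N x hN
    obtain ⟨h1, h2⟩ := huga N 2 0 hN (by omega)
    have e1 : ∀ s : ℤ, ga N (((2 : ℕ) : ℝ) * (s : ℝ) + 0) = ga N (2 * (s : ℝ)) := by
      intro s
      push_cast
      rw [add_zero]
    simp only [e1] at h1 h2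
    have e2 : ∀ s : ℤ, ‖(ga N (2 * (s : ℝ)) : ℂ) * ee (x * (s : ℝ) ^ 2)‖ =
        ga N (2 * (s : ℝ)) := by
      intro s
      rw [norm_mul, Pool.Agent.Helper69_Weyl.norm_ee, mul_one, Complex.norm_real,
        Real.norm_of_nonneg]
      unfold ga
      exact (Real.exp_pos _).le
    unfold th
    refine le_trans (norm_tsum_le_tsum_norm ?_) ?_
    · simp only [e2]
      exact h1
    · simp only [e2]
      exact h2
  · intro N μ α β h
    unfold ps ga
    rw [norm_mul, Pool.Agent.Helper69_Weyl.norm_ee, one_mul, Complex.norm_real,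
      Real.norm_of_nonneg (Real.exp_pos _).le]
    congr 2
    ring

end Pool.Agent.K4W.H47
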